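import Mathlib

/-! # MP_d7d65f: the iteration (abstract form) -/

set_option autoImplicit false

open Finset

namespace Pool.Agent.BHS

/-- The data of a window. -/
structure Win (Λ η : ℝ) (K : ℕ → ℝ) (m0 M : ℕ) (N : Finset ℕ) (e : ℕ → ℕ → ℝ) : Prop where
  mem : ∀ j ∈ N, m0 ≤ j ∧ j < m0 + M
  nonneg : ∀ j ∈ N, ∀ m, m0 ≤ m → m ≤ j → 0 ≤ e j m
  le : ∀ j ∈ N, ∀ m, m0 ≤ m → m ≤ j → e j m ≤ Λ
  anti : ∀ j ∈ N, ∀ m m', m0 ≤ m → m ≤ m' → m' ≤ j → e j m' ≤ e j m
  few : ∀ Q m, m0 ≤ m → m < m0 + M →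
    ((N.filter (fun j => m + Q + 2 ≤ j ∧ e j m - e j (j - Q) ≤ η)).card : ℝ) ≤ K Q

lemma step_lemma (Λ η p : ℝ) (K : ℕ → ℝ) (hK : ∀ Q, 0 ≤ K Q) (hη : 0 < η) (hp : 0 < p) (t : ℕ) :
    ∃ Q M₀ : ℕ, ∀ (m0 M : ℕ) (N : Finset ℕ) (e : ℕ → ℕ → ℝ), Win Λ η K m0 M N e → M₀ ≤ M →
      p * M ≤ (N.card : ℝ) →
      p * (1 / 2) ^ t * M ≤
        ((N.filter (fun j => m0 + Q ≤ j ∧ (t : ℝ) * η ≤ e j (j - Q))).card : ℝ) := by
  classical
  induction t with
  | zero =>
    refine ⟨0, 0, ?_⟩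
    intro m0 M N e hW _ hN
    have h1 : N.filter (fun j => m0 + 0 ≤ j ∧ ((0 : ℕ) : ℝ) * η ≤ e j (j - 0)) = N := by
      rw [Finset.filter_true_of_mem]
      intro j hj
      refine ⟨(hW.mem j hj).1, ?_⟩
      have := hW.nonneg j hj j (hW.mem j hj).1 le_rfl
      simpa using this
    rw [h1]
    simpa using hN
  | succ t ih =>
    obtain ⟨Q, M₀, ih⟩ := ih
    set c : ℝ := p * (1 / 2) ^ t with hc
    have hc0 : 0 < c := by positivity
    obtain ⟨R, hR⟩ := exists_nat_ge (4 * K Q / c)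
    set Q' := Q + (R + 2) with hQ'
    obtain ⟨M₁, hM₁⟩ := exists_nat_ge (4 * (Q' : ℝ) / c)
    refine ⟨Q', max M₀ M₁, ?_⟩
    intro m0 M N e hW hM hN
    have ih' := ih m0 M N e hW (le_trans (le_max_left _ _) hM) hN
    set Nt := N.filter (fun j => m0 + Q ≤ j ∧ (t : ℝ) * η ≤ e j (j - Q)) with hNt
    set Ns := N.filter (fun j => m0 + Q' ≤ j ∧ ((t + 1 : ℕ) : ℝ) * η ≤ e j (j - Q')) with hNs
    set Bd := Finset.Ico m0 (m0 + Q') with hBd
    set Bad := Nt.filter (fun j => m0 + Q' ≤ j ∧ e j (j - Q') < ((t + 1 : ℕ) : ℝ) * η) with hBad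
    have hcover : Nt ⊆ Ns ∪ (Bd ∪ Bad) := by
      intro j hj
      have hj1 := Finset.mem_filter.1 hj
      rw [Finset.mem_union, Finset.mem_union]
      by_cases h1 : m0 + Q' ≤ j
      · by_cases h2 : ((t + 1 : ℕ) : ℝ) * η ≤ e j (j - Q')
        · left
          exact Finset.mem_filter.2 ⟨hj1.1, h1, h2⟩
        · right; right
          exact Finset.mem_filter.2 ⟨hj, h1, not_le.1 h2⟩
      · right; left
        rw [hBd, Finset.mem_Ico]
        have := (hW.mem j hj1.1).1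
        omega
    have hcard : (Nt.card : ℝ) ≤ Ns.card + (Bd.card + Bad.card) := by
      have h1 := Finset.card_le_card hcover
      have h2 := Finset.card_union_le Ns (Bd ∪ Bad)
      have h3 := Finset.card_union_le Bd Bad
      have h4 : Nt.card ≤ Ns.card + (Bd.card + Bad.card) := by omega
      exact_mod_cast h4
    have hBdc : (Bd.card : ℝ) = Q' := by
      rw [hBd, Nat.card_Ico]
      congr 1
      omega
    have hBdM : (Q' : ℝ) ≤ c * M / 4 := by
      have h1 : (M₁ : ℝ) ≤ M := by exact_mod_cast le_trans (le_max_right _ _) hM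
      have h2 : 4 * (Q' : ℝ) / c ≤ M := hM₁.trans h1
      rw [div_le_iff₀ hc0] at h2
      linarith
    -- the double count
    have hBadc : (Bad.card : ℝ) * (R + 1) ≤ M * K Q := by
      have h1 : ∀ j ∈ Bad, ∀ i ∈ range (R + 1),
          j - Q' + i ∈ Finset.Ico m0 (m0 + M) ∧
          j ∈ N.filter (fun j' => (j - Q' + i) + Q + 2 ≤ j' ∧
            e j' (j - Q' + i) - e j' (j' - Q) ≤ η) := by
        intro j hj i hi
        have hi' := Finset.mem_range.1 hi
        obtain ⟨hj1, hj2, hj3⟩ := Finset.mem_filter.1 hj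
        obtain ⟨hj4, hj5, hj6⟩ := Finset.mem_filter.1 hj1
        have hj7 := hW.mem j hj4
        refine ⟨?_, ?_⟩
        · rw [Finset.mem_Ico]
          omega
        · rw [Finset.mem_filter]
          refine ⟨hj4, by omega, ?_⟩
          have h2 := hW.anti j hj4 (j - Q') (j - Q' + i) (by omega) (by omega) (by omega)
          push_cast at hj3
          linarith
      have h2 : Bad.card * (R + 1) ≤ ∑ m ∈ Finset.Ico m0 (m0 + M),
          (N.filter (fun j' => m + Q + 2 ≤ j' ∧ e j' m - e j' (j' - Q) ≤ η)).card := by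
        rw [← Finset.card_sigma, ← Finset.card_range (R + 1), ← Finset.card_product]
        refine Finset.card_le_card_of_injOn (fun x : ℕ × ℕ => (⟨x.1 - Q' + x.2, x.1⟩ : Σ _ : ℕ, ℕ))
          ?_ ?_
        · rintro ⟨j, i⟩ hx
          obtain ⟨hj, hi⟩ := Finset.mem_product.1 (Finset.mem_coe.1 hx)
          obtain ⟨h3, h4⟩ := h1 j hj i hi
          exact Finset.mem_coe.2 (Finset.mem_sigma.2 ⟨h3, h4⟩)
        · rintro ⟨j, i⟩ hx ⟨j', i'⟩ hx' heq
          obtain ⟨hj, hi⟩ := Finset.mem_product.1 (Finset.mem_coe.1 hx)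
          obtain ⟨hj', hi'⟩ := Finset.mem_product.1 (Finset.mem_coe.1 hx')
          simp only [Sigma.mk.injEq, heq_eq_eq] at heq
          obtain ⟨h5, h6⟩ := heq
          subst h6
          simp only [Prod.mk.injEq, true_and]
          have h7 := Finset.mem_filter.1 hj
          have h8 := Finset.mem_filter.1 hj'
          have h9 := h7.2.1
          have h10 := h8.2.1
          have h5' : j - Q' + i = j - Q' + i' := h5
          omega
      have h3 : ((Bad.card * (R + 1) : ℕ) : ℝ) ≤ ∑ m ∈ Finset.Ico m0 (m0 + M), K Q := by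
        refine (Nat.cast_le.2 h2).trans ?_
        push_cast
        refine Finset.sum_le_sum (fun m hm => ?_)
        rw [Finset.mem_Ico] at hm
        exact hW.few Q m hm.1 hm.2
      rw [Finset.sum_const, Nat.card_Ico, nsmul_eq_mul] at h3
      have h4 : m0 + M - m0 = M := by omega
      rw [h4] at h3
      push_cast at h3
      exact h3
    have hBadM : (Bad.card : ℝ) ≤ c * M / 4 := by
      have h1 : 4 * K Q ≤ R * c := by
        rw [div_le_iff₀ hc0] at hR
        exact hR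
      have hR1 : (0 : ℝ) < (R : ℝ) + 1 := by positivity
      have h2 : (Bad.card : ℝ) * (R + 1) ≤ (c * M / 4) * (R + 1) := by
        have hM0 : (0 : ℝ) ≤ M := Nat.cast_nonneg _
        have h5 : (M : ℝ) * K Q ≤ M * (R * c / 4) :=
          mul_le_mul_of_nonneg_left (by linarith) hM0
        have h6 : (0 : ℝ) ≤ c * M / 4 := by positivity
        nlinarith
      exact le_of_mul_le_mul_right h2 hR1
    have hfin : p * (1 / 2) ^ (t + 1) * M = c * M / 2 := by
      rw [hc, pow_succ]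
      ring
    rw [hfin]
    linarith

/-- The iteration. -/
lemma iter (Λ η p : ℝ) (K : ℕ → ℝ) (hK : ∀ Q, 0 ≤ K Q) (hη : 0 < η) (hp : 0 < p) :
    ∃ M₀ : ℕ, ∀ (m0 M : ℕ) (N : Finset ℕ) (e : ℕ → ℕ → ℝ), Win Λ η K m0 M N e → M₀ ≤ M →
      (N.card : ℝ) < p * M := by
  classical
  obtain ⟨t, ht⟩ := exists_nat_gt (Λ / η)
  obtain ⟨Q, M₀, h⟩ := step_lemma Λ η p K hK hη hp t
  refine ⟨max M₀ 1, ?_⟩
  intro m0 M N e hW hM
  by_contra hcon
  rw [not_lt] at hcon
  have h1 := h m0 M N e hW (le_trans (le_max_left _ _) hM) hcon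
  have hM1 : (1 : ℝ) ≤ M := by exact_mod_cast le_trans (le_max_right _ _) hM
  have h2 : (0 : ℝ) < ((N.filter (fun j => m0 + Q ≤ j ∧ (t : ℝ) * η ≤ e j (j - Q))).card : ℝ) := by
    refine lt_of_lt_of_le ?_ h1
    positivity
  have h3 : 0 < (N.filter (fun j => m0 + Q ≤ j ∧ (t : ℝ) * η ≤ e j (j - Q))).card := by
    exact_mod_cast h2
  obtain ⟨j, hj⟩ := Finset.card_pos.1 h3
  obtain ⟨hj1, hj2, hj3⟩ := Finset.mem_filter.1 hj
  have h4 := hW.le j hj1 (j - Q) (by omega) (by omega)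
  rw [div_lt_iff₀ hη] at ht
  linarith

end Pool.Agent.BHS
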