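import Mathlib

/-! # MP_d7d65f: correlations of functions with small energy increment -/

set_option autoImplicit false

open Finset

namespace Pool.Agent.BHS

lemma sum_range_add' (f : ℕ → ℝ) (m n : ℕ) :
    ∑ x ∈ range (m + n), f x = ∑ x ∈ range m, f x + ∑ x ∈ range n, f (m + x) := by
  induction n with
  | zero => simp
  | succ n ih => rw [← Nat.add_assoc, Finset.sum_range_succ, ih, Finset.sum_range_succ, add_assoc]

lemma sum_blocks (f : ℕ → ℝ) (q N : ℕ) :
    ∑ v ∈ range (N * q), f v = ∑ V ∈ range N, ∑ r ∈ range q, f (V * q + r) := by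
  induction N with
  | zero => simp
  | succ N ih => rw [Nat.succ_mul, sum_range_add', ih, Finset.sum_range_succ]

lemma shift_le (g : ℕ → ℝ) (N t : ℕ) (h0 : ∀ v, 0 ≤ g v) (hN : ∀ v, N ≤ v → g v = 0) :
    ∑ v ∈ range N, g (v + t) ≤ ∑ v ∈ range N, g v := by
  have h1 : ∑ v ∈ range N, g (v + t) ≤ ∑ v ∈ range (t + N), g v := by
    rw [sum_range_add']
    have h2 : ∑ v ∈ range N, g (v + t) = ∑ v ∈ range N, g (t + v) :=
      Finset.sum_congr rfl (fun v _ => by rw [Nat.add_comm])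
    rw [h2]
    have := Finset.sum_nonneg (s := range t) (fun v _ => h0 v)
    linarith
  have h3 : ∑ v ∈ range (t + N), g v = ∑ v ∈ range N, g v := by
    rw [Nat.add_comm, sum_range_add']
    have : ∑ x ∈ range t, g (N + x) = 0 := Finset.sum_eq_zero (fun x _ => hN _ (by omega))
    rw [this, add_zero]
  rw [h3] at h1
  exact h1

/-- coarsening by the factor `q` -/
noncomputable def coarse (q : ℕ) (w : ℕ → ℝ) (V : ℕ) : ℝ := ∑ r ∈ range q, w (V * q + r)

lemma div_block (V q r : ℕ) (hr : r < q) : (V * q + r) / q = V := by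
  rw [Nat.add_comm, Nat.add_mul_div_right _ _ (by omega), Nat.div_eq_of_lt hr, Nat.zero_add]

/-- the orthogonality identity -/
lemma ortho (w : ℕ → ℝ) (q N : ℕ) (hq : 0 < q) :
    ∑ v ∈ range (N * q), (w v - coarse q w (v / q) / q) ^ 2 =
      ∑ v ∈ range (N * q), w v ^ 2 - (1 / q) * ∑ V ∈ range N, coarse q w V ^ 2 := by
  rw [sum_blocks, sum_blocks, Finset.mul_sum, ← Finset.sum_sub_distrib]
  refine Finset.sum_congr rfl (fun V _ => ?_)
  have hq' : (q : ℝ) ≠ 0 := by exact_mod_cast hq.ne'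
  have h1 : ∑ r ∈ range q, (w (V * q + r) - coarse q w ((V * q + r) / q) / q) ^ 2 =
      ∑ r ∈ range q, (w (V * q + r) ^ 2 - 2 * (coarse q w V / q) * w (V * q + r) +
        (coarse q w V / q) ^ 2) := by
    refine Finset.sum_congr rfl (fun r hr => ?_)
    rw [div_block V q r (Finset.mem_range.1 hr)]
    ring
  rw [h1, Finset.sum_add_distrib, Finset.sum_sub_distrib, ← Finset.mul_sum, Finset.sum_const,
    Finset.card_range, nsmul_eq_mul]
  have h2 : ∑ r ∈ range q, w (V * q + r) = coarse q w V := rfl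
  rw [h2]
  field_simp
  ring

lemma energy_mono (w : ℕ → ℝ) (q N : ℕ) (hq : 0 < q) :
    (1 / q) * ∑ V ∈ range N, coarse q w V ^ 2 ≤ ∑ v ∈ range (N * q), w v ^ 2 := by
  have h1 := ortho w q N hq
  have h2 : 0 ≤ ∑ v ∈ range (N * q), (w v - coarse q w (v / q) / q) ^ 2 :=
    Finset.sum_nonneg (fun _ _ => sq_nonneg _)
  linarith

/-- the main part of the correlation -/
lemma block_corr (G : ℕ → ℝ) (q N t : ℕ) (h0 : ∀ v, 0 ≤ G v) (ht : 2 * t ≤ q) :
    (q / 2 : ℝ) * ∑ V ∈ range N, G V ^ 2 ≤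
      ∑ v ∈ range (N * q), G (v / q) * G ((v + t) / q) := by
  rw [sum_blocks, Finset.mul_sum]
  refine Finset.sum_le_sum (fun V _ => ?_)
  have h1 : ∑ r ∈ range (q - t), G V ^ 2 ≤
      ∑ r ∈ range q, G ((V * q + r) / q) * G ((V * q + r + t) / q) := by
    have h2 : ∑ r ∈ range (q - t), G V ^ 2 =
        ∑ r ∈ range (q - t), G ((V * q + r) / q) * G ((V * q + r + t) / q) := by
      refine Finset.sum_congr rfl (fun r hr => ?_)
      have hr' := Finset.mem_range.1 hr
      rw [div_block V q r (by omega), Nat.add_assoc, div_block V q (r + t) (by omega)]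
      ring
    rw [h2]
    refine Finset.sum_le_sum_of_subset_of_nonneg ?_ (fun r _ _ => mul_nonneg (h0 _) (h0 _))
    intro r hr
    rw [Finset.mem_range] at hr ⊢
    omega
  refine le_trans ?_ h1
  rw [Finset.sum_const, Finset.card_range, nsmul_eq_mul]
  have h3 : (q / 2 : ℝ) ≤ ((q - t : ℕ) : ℝ) := by
    rw [Nat.cast_sub (by omega)]
    have : (2 * t : ℝ) ≤ q := by exact_mod_cast ht
    linarith
  exact mul_le_mul_of_nonneg_right h3 (sq_nonneg _)

lemma cs (f g : ℕ → ℝ) (s : Finset ℕ) :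
    |∑ v ∈ s, f v * g v| ≤ Real.sqrt (∑ v ∈ s, f v ^ 2) * Real.sqrt (∑ v ∈ s, g v ^ 2) := by
  have h1 := Finset.sum_mul_sq_le_sq_mul_sq s f g
  rw [← Real.sqrt_mul (Finset.sum_nonneg (fun _ _ => sq_nonneg _)), ← Real.sqrt_sq_eq_abs]
  exact Real.sqrt_le_sqrt h1

/-- Correlation of `w` at the shift `t`. -/
lemma corr (w : ℕ → ℝ) (q N t : ℕ) (hq : 0 < q) (h0 : ∀ v, 0 ≤ w v)
    (hN : ∀ v, N * q ≤ v → w v = 0) (ht : 2 * t ≤ q) :
    (1 / (2 * q) : ℝ) * ∑ V ∈ range N, coarse q w V ^ 2 -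
      2 * Real.sqrt (∑ v ∈ range (N * q), w v ^ 2) *
        Real.sqrt (∑ v ∈ range (N * q), w v ^ 2 - (1 / q) * ∑ V ∈ range N, coarse q w V ^ 2) ≤
      ∑ v ∈ range (N * q), w v * w (v + t) := by
  have hq' : (0 : ℝ) < q := by exact_mod_cast hq
  have hc0 : ∀ V, 0 ≤ coarse q w V := fun V => Finset.sum_nonneg (fun _ _ => h0 _)
  have hcN : ∀ V, N ≤ V → coarse q w V = 0 := by
    intro V hV
    refine Finset.sum_eq_zero (fun r _ => hN _ ?_)
    have := Nat.mul_le_mul_right q hV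
    omega
  set F : ℕ → ℝ := fun v => coarse q w (v / q) / q with hF
  have hF0 : ∀ v, 0 ≤ F v := fun v => div_nonneg (hc0 _) hq'.le
  have hFN : ∀ v, N * q ≤ v → F v = 0 := by
    intro v hv
    have : N ≤ v / q := (Nat.le_div_iff_mul_le hq).2 hv
    simp only [hF]
    rw [hcN _ this, zero_div]
  have hid : ∑ v ∈ range (N * q), w v * w (v + t) =
      ∑ v ∈ range (N * q), F v * F (v + t) +
        (∑ v ∈ range (N * q), (w v - F v) * w (v + t) +
          ∑ v ∈ range (N * q), F v * (w (v + t) - F (v + t))) := by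
    rw [← Finset.sum_add_distrib, ← Finset.sum_add_distrib]
    refine Finset.sum_congr rfl (fun v _ => ?_)
    ring
  have hFF : (1 / (2 * q) : ℝ) * ∑ V ∈ range N, coarse q w V ^ 2 ≤
      ∑ v ∈ range (N * q), F v * F (v + t) := by
    have h1 := block_corr (fun V => coarse q w V / q) q N t (fun V => div_nonneg (hc0 V) hq'.le) ht
    have h2 : (q / 2 : ℝ) * ∑ V ∈ range N, (coarse q w V / q) ^ 2 =
        (1 / (2 * q) : ℝ) * ∑ V ∈ range N, coarse q w V ^ 2 := by
      rw [Finset.mul_sum, Finset.mul_sum]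
      refine Finset.sum_congr rfl (fun V _ => ?_)
      field_simp
    rw [← h2]
    exact h1
  have hEE : ∑ v ∈ range (N * q), (w v - F v) ^ 2 =
      ∑ v ∈ range (N * q), w v ^ 2 - (1 / q) * ∑ V ∈ range N, coarse q w V ^ 2 := ortho w q N hq
  have hF2 : ∑ v ∈ range (N * q), F v ^ 2 ≤ ∑ v ∈ range (N * q), w v ^ 2 := by
    have h1 : ∑ v ∈ range (N * q), F v ^ 2 = (1 / q) * ∑ V ∈ range N, coarse q w V ^ 2 := by
      rw [sum_blocks, Finset.mul_sum]
      refine Finset.sum_congr rfl (fun V _ => ?_)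
      have h2 : ∑ r ∈ range q, F (V * q + r) ^ 2 = ∑ r ∈ range q, (coarse q w V / q) ^ 2 := by
        refine Finset.sum_congr rfl (fun r hr => ?_)
        simp only [hF]
        rw [div_block V q r (Finset.mem_range.1 hr)]
      rw [h2, Finset.sum_const, Finset.card_range, nsmul_eq_mul]
      field_simp
    rw [h1]
    exact energy_mono w q N hq
  have c1 := cs (fun v => w v - F v) (fun v => w (v + t)) (range (N * q))
  have c2 := cs F (fun v => w (v + t) - F (v + t)) (range (N * q))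
  have s1 : ∑ v ∈ range (N * q), w (v + t) ^ 2 ≤ ∑ v ∈ range (N * q), w v ^ 2 :=
    shift_le (fun v => w v ^ 2) (N * q) t (fun v => sq_nonneg _)
      (fun v hv => by rw [hN v hv]; norm_num)
  have s2 : ∑ v ∈ range (N * q), (w (v + t) - F (v + t)) ^ 2 ≤
      ∑ v ∈ range (N * q), (w v - F v) ^ 2 :=
    shift_le (fun v => (w v - F v) ^ 2) (N * q) t (fun v => sq_nonneg _)
      (fun v hv => by rw [hN v hv, hFN v hv]; norm_num)
  set a := Real.sqrt (∑ v ∈ range (N * q), w v ^ 2) with ha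
  set b := Real.sqrt (∑ v ∈ range (N * q), w v ^ 2 - (1 / q) * ∑ V ∈ range N, coarse q w V ^ 2) with hb
  have r1 : Real.sqrt (∑ v ∈ range (N * q), (w v - F v) ^ 2) = b := by rw [hb, hEE]
  have r2 : Real.sqrt (∑ v ∈ range (N * q), w (v + t) ^ 2) ≤ a := Real.sqrt_le_sqrt s1
  have r3 : Real.sqrt (∑ v ∈ range (N * q), F v ^ 2) ≤ a := Real.sqrt_le_sqrt hF2
  have r4 : Real.sqrt (∑ v ∈ range (N * q), (w (v + t) - F (v + t)) ^ 2) ≤ b := by
    rw [← r1]
    exact Real.sqrt_le_sqrt s2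
  have a0 : 0 ≤ a := Real.sqrt_nonneg _
  have b0 : 0 ≤ b := Real.sqrt_nonneg _
  rw [r1] at c1
  have c1' : |∑ v ∈ range (N * q), (w v - F v) * w (v + t)| ≤ b * a :=
    c1.trans (mul_le_mul_of_nonneg_left r2 b0)
  have c2' : |∑ v ∈ range (N * q), F v * (w (v + t) - F (v + t))| ≤ a * b :=
    c2.trans (mul_le_mul r3 r4 (Real.sqrt_nonneg _) a0)
  have d1 := (abs_le.1 c1').1
  have d2 := (abs_le.1 c2').1
  rw [hid]
  nlinarith

end Pool.Agent.BHS
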