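import Mathlib

/-! # MP_d7d65f: the counting inequality for B_h-sets, h odd -/

set_option autoImplicit false

open Finset

namespace Pool.Agent.BHS

/-- B_h-set -/
def IsBh (h : ℕ) (A : Set ℕ) : Prop :=
  ∀ s t : Multiset ℕ, Multiset.card s = h → Multiset.card t = h →
    (∀ x ∈ s, x ∈ A) → (∀ x ∈ t, x ∈ A) → s.sum = t.sum → s = t

lemma val_sum (U : Finset ℕ) : U.val.sum = ∑ b ∈ U, b :=
  (Finset.sum_val U).trans rfl

/-- filter of a finset multiset -/
lemma filt_all (p : ℕ → Prop) [DecidablePred p] (U : Finset ℕ) (hU : ∀ x ∈ U, p x) :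
    Multiset.filter p U.val = U.val := by
  rw [Multiset.filter_eq_self]
  exact fun x hx => hU x hx

lemma filt_none (p : ℕ → Prop) [DecidablePred p] (U : Finset ℕ) (hU : ∀ x ∈ U, ¬ p x) :
    Multiset.filter p U.val = 0 := by
  rw [Multiset.filter_eq_nil]
  exact fun x hx => hU x hx

lemma filt_sing (p : ℕ → Prop) [DecidablePred p] (a : ℕ) (ha : p a) :
    Multiset.filter p {a} = {a} := by
  rw [Multiset.filter_eq_self]
  intro x hx
  rw [Multiset.mem_singleton] at hx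
  rw [hx]; exact ha

lemma filt_sing0 (p : ℕ → Prop) [DecidablePred p] (a : ℕ) (ha : ¬ p a) :
    Multiset.filter p {a} = 0 := by
  rw [Multiset.filter_eq_nil]
  intro x hx
  rw [Multiset.mem_singleton] at hx
  rw [hx]; exact ha

/-- Uniqueness of the representation. -/
lemma uniq {k : ℕ} (hk : 2 ≤ k) {A : Set ℕ} (hA : IsBh (2 * k - 1) A)
    {L P R : ℕ → Finset ℕ}
    (hL : ∀ j, ∀ x ∈ L j, x ∈ A ∧ 2 ^ j ≤ x ∧ x < 2 ^ (j + 1))
    (hP : ∀ j, ∀ x ∈ P j, x ∈ A ∧ x < 2 ^ j)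
    (hR : ∀ j, ∀ x ∈ R j, x ∈ A ∧ x < 2 ^ j)
    (hPR : ∀ j, Disjoint (P j) (R j))
    {j j' : ℕ} {S S' T T' : Finset ℕ} {a a' b b' : ℕ}
    (hS : S ⊆ P j) (hS' : S' ⊆ P j') (hT : T ⊆ R j) (hT' : T' ⊆ R j')
    (cS : S.card = k - 1) (cS' : S'.card = k - 1) (cT : T.card = k - 2) (cT' : T'.card = k - 2)
    (ha : a ∈ L j) (ha' : a' ∈ L j') (hb : b ∈ L j) (hb' : b' ∈ L j')
    (hab : a ≠ b) (hab' : a' ≠ b')
    (hsum : a + ∑ x ∈ S, x + (b' + ∑ x ∈ T', x) = a' + ∑ x ∈ S', x + (b + ∑ x ∈ T, x)) :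
    j = j' ∧ S = S' ∧ T = T' ∧ a = a' ∧ b = b' := by
  have hms : ({a} + S.val) + ({b'} + T'.val) = ({a'} + S'.val) + ({b} + T.val) := by
    apply hA
    · simp only [Multiset.card_add, Finset.card_val, Multiset.card_singleton, cS, cT']
      omega
    · simp only [Multiset.card_add, Finset.card_val, Multiset.card_singleton, cS', cT]
      omega
    · intro x hx
      simp only [Multiset.mem_add, Finset.mem_val, Multiset.mem_singleton] at hx
      rcases hx with (h | h) | (h | h)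
      · rw [h]; exact (hL j a ha).1
      · exact (hP j x (hS h)).1
      · rw [h]; exact (hL j' b' hb').1
      · exact (hR j' x (hT' h)).1
    · intro x hx
      simp only [Multiset.mem_add, Finset.mem_val, Multiset.mem_singleton] at hx
      rcases hx with (h | h) | (h | h)
      · rw [h]; exact (hL j' a' ha').1
      · exact (hP j' x (hS' h)).1
      · rw [h]; exact (hL j b hb).1
      · exact (hR j x (hT h)).1
    · simp only [Multiset.sum_add, Multiset.sum_singleton, val_sum]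
      exact hsum
  have hjj : j = j' := by
    rcases lt_trichotomy j j' with h | h | h
    · exfalso
      have hpow : 2 ^ (j + 1) ≤ 2 ^ j' := Nat.pow_le_pow_right (by norm_num) h
      have hm : a' ∈ ({a} + S.val) + ({b'} + T'.val) := by
        rw [hms]
        simp
      simp only [Multiset.mem_add, Finset.mem_val, Multiset.mem_singleton] at hm
      have h1 := (hL j' a' ha').2.1
      rcases hm with (h2 | h2) | (h2 | h2)
      · have := (hL j a ha).2.2
        omega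
      · have := (hP j a' (hS h2)).2
        have h3 : 2 ^ j ≤ 2 ^ (j + 1) := Nat.pow_le_pow_right (by norm_num) (by omega)
        omega
      · exact hab' h2
      · have := (hR j' a' (hT' h2)).2
        omega
    · exact h
    · exfalso
      have hpow : 2 ^ (j' + 1) ≤ 2 ^ j := Nat.pow_le_pow_right (by norm_num) h
      have hm : a ∈ ({a'} + S'.val) + ({b} + T.val) := by
        rw [← hms]
        simp
      simp only [Multiset.mem_add, Finset.mem_val, Multiset.mem_singleton] at hm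
      have h1 := (hL j a ha).2.1
      rcases hm with (h2 | h2) | (h2 | h2)
      · have := (hL j' a' ha').2.2
        omega
      · have := (hP j' a (hS' h2)).2
        have h3 : 2 ^ j' ≤ 2 ^ (j' + 1) := Nat.pow_le_pow_right (by norm_num) (by omega)
        omega
      · exact hab h2
      · have := (hR j a (hT h2)).2
        omega
  subst hjj
  -- the large elements
  have hbig : ({a} : Multiset ℕ) + {b'} = {a'} + {b} := by
    have h := congrArg (Multiset.filter (fun x : ℕ => 2 ^ j ≤ x)) hms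
    rw [Multiset.filter_add, Multiset.filter_add, Multiset.filter_add, Multiset.filter_add,
      Multiset.filter_add, Multiset.filter_add,
      filt_sing _ a (hL j a ha).2.1, filt_sing _ a' (hL j a' ha').2.1,
      filt_sing _ b (hL j b hb).2.1, filt_sing _ b' (hL j b' hb').2.1,
      filt_none _ S (fun x hx h => absurd h (not_le.2 (hP j x (hS hx)).2)),
      filt_none _ S' (fun x hx h => absurd h (not_le.2 (hP j x (hS' hx)).2)),
      filt_none _ T (fun x hx h => absurd h (not_le.2 (hR j x (hT hx)).2)),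
      filt_none _ T' (fun x hx h => absurd h (not_le.2 (hR j x (hT' hx)).2))] at h
    simpa using h
  have haa : a = a' := by
    have hm : a ∈ ({a'} : Multiset ℕ) + {b} := by
      rw [← hbig]
      simp
    simp only [Multiset.mem_add, Multiset.mem_singleton] at hm
    exact hm.resolve_right hab
  subst haa
  have hbb : b = b' := by
    have := add_left_cancel hbig
    exact (Multiset.singleton_inj.1 this).symm
  subst hbb
  have hsmall : S.val + T'.val = S'.val + T.val := by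
    have h1 : ({a} : Multiset ℕ) + ({b} + (S.val + T'.val)) = {a} + ({b} + (S'.val + T.val)) := by
      have e1 : ({a} : Multiset ℕ) + ({b} + (S.val + T'.val)) = ({a} + S.val) + ({b} + T'.val) := by
        abel
      have e2 : ({a} : Multiset ℕ) + ({b} + (S'.val + T.val)) = ({a} + S'.val) + ({b} + T.val) := by
        abel
      rw [e1, e2, hms]
    exact add_left_cancel (add_left_cancel h1)
  have hST : ∀ x ∈ S, x ∈ S' := by
    intro x hx
    have hm : x ∈ S'.val + T.val := by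
      rw [← hsmall]
      simp [hx]
    simp only [Multiset.mem_add, Finset.mem_val] at hm
    refine hm.resolve_right (fun h => ?_)
    exact Finset.disjoint_left.1 (hPR j) (hS hx) (hT h)
  have hSS : S = S' := Finset.eq_of_subset_of_card_le hST (by rw [cS, cS'])
  subst hSS
  have hTT : T'.val = T.val := add_left_cancel hsmall
  exact ⟨rfl, rfl, Finset.val_injective hTT.symm, rfl, rfl⟩

/-- The counting inequality. -/
lemma count {k : ℕ} (hk : 2 ≤ k) {A : Set ℕ} (hA : IsBh (2 * k - 1) A)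
    {L P R : ℕ → Finset ℕ}
    (hL : ∀ j, ∀ x ∈ L j, x ∈ A ∧ 2 ^ j ≤ x ∧ x < 2 ^ (j + 1))
    (hP : ∀ j, ∀ x ∈ P j, x ∈ A ∧ x < 2 ^ j)
    (hR : ∀ j, ∀ x ∈ R j, x ∈ A ∧ x < 2 ^ j)
    (hPR : ∀ j, Disjoint (P j) (R j)) (G : Finset ℕ) (W : ℕ) (ω : ℕ → ℝ)
    (hω : ∀ j ∈ G, ∀ S ⊆ P j, ∀ T ⊆ R j, S.card = k - 1 → T.card = k - 2 →
      ω j ≤ (((L j ×ˢ L j).filter (fun q : ℕ × ℕ => q.1 ≠ q.2 ∧
        |(q.1 : ℤ) - q.2 + ((∑ x ∈ S, (x : ℤ)) - ∑ x ∈ T, (x : ℤ))| ≤ W)).card : ℝ)) :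
    ∑ j ∈ G, ((((P j).card.choose (k - 1) : ℕ) : ℝ) * (((R j).card.choose (k - 2) : ℕ) : ℝ)) * ω j ≤
      2 * W + 1 := by
  classical
  let base : Finset (Σ _ : ℕ, Finset ℕ × Finset ℕ) :=
    G.sigma (fun j => powersetCard (k - 1) (P j) ×ˢ powersetCard (k - 2) (R j))
  let total : Finset (Σ _ : (Σ _ : ℕ, Finset ℕ × Finset ℕ), ℕ × ℕ) :=
    base.sigma (fun p => (L p.1 ×ˢ L p.1).filter (fun q : ℕ × ℕ => q.1 ≠ q.2 ∧
        |(q.1 : ℤ) - q.2 + ((∑ x ∈ p.2.1, (x : ℤ)) - ∑ x ∈ p.2.2, (x : ℤ))| ≤ W))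
  have hbase : ∀ j S T, (⟨j, (S, T)⟩ : Σ _ : ℕ, Finset ℕ × Finset ℕ) ∈ base →
      j ∈ G ∧ S ⊆ P j ∧ T ⊆ R j ∧ S.card = k - 1 ∧ T.card = k - 2 := by
    intro j S T hp
    simp only [base, Finset.mem_sigma, Finset.mem_product, Finset.mem_powersetCard] at hp
    exact ⟨hp.1, hp.2.1.1, hp.2.2.1, hp.2.1.2, hp.2.2.2⟩
  have hcard : ∑ j ∈ G, ((((P j).card.choose (k - 1) : ℕ) : ℝ) *
      (((R j).card.choose (k - 2) : ℕ) : ℝ)) * ω j ≤ (total.card : ℝ) := by
    have e : (total.card : ℝ) = ∑ p ∈ base, (((L p.1 ×ˢ L p.1).filter (fun q : ℕ × ℕ => q.1 ≠ q.2 ∧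
        |(q.1 : ℤ) - q.2 + ((∑ x ∈ p.2.1, (x : ℤ)) - ∑ x ∈ p.2.2, (x : ℤ))| ≤ W)).card : ℝ) := by
      rw [Finset.card_sigma]; push_cast; rfl
    rw [e]
    have e2 : ∑ j ∈ G, ((((P j).card.choose (k - 1) : ℕ) : ℝ) *
        (((R j).card.choose (k - 2) : ℕ) : ℝ)) * ω j = ∑ p ∈ base, ω p.1 := by
      rw [Finset.sum_sigma]
      apply Finset.sum_congr rfl
      intro j _
      simp only [Finset.sum_const, Finset.card_product, Finset.card_powersetCard, nsmul_eq_mul]
      push_cast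
      ring
    rw [e2]
    apply Finset.sum_le_sum
    rintro ⟨j, ⟨S, T⟩⟩ hp
    obtain ⟨hj, hS, hT, cS, cT⟩ := hbase j S T hp
    exact hω j hj S hS T hT cS cT
  refine hcard.trans ?_
  let f : (Σ _ : (Σ _ : ℕ, Finset ℕ × Finset ℕ), ℕ × ℕ) → ℤ := fun x =>
    (x.2.1 : ℤ) - x.2.2 + ((∑ y ∈ x.1.2.1, (y : ℤ)) - ∑ y ∈ x.1.2.2, (y : ℤ))
  have hmaps : ∀ x ∈ total, f x ∈ Finset.Icc (-(W : ℤ)) W := by
    rintro ⟨p, q⟩ hx
    have hx' := Finset.mem_sigma.1 hx
    have hq := (Finset.mem_filter.1 hx'.2).2.2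
    rw [Finset.mem_Icc]
    exact abs_le.1 hq
  have hinj : Set.InjOn f (total : Set _) := by
    rintro ⟨⟨j, ⟨S, T⟩⟩, ⟨a, b⟩⟩ hx ⟨⟨j', ⟨S', T'⟩⟩, ⟨a', b'⟩⟩ hx' hff
    have m := Finset.mem_sigma.1 (Finset.mem_coe.1 hx)
    have m' := Finset.mem_sigma.1 (Finset.mem_coe.1 hx')
    obtain ⟨-, hS, hT, cS, cT⟩ := hbase j S T m.1
    obtain ⟨-, hS', hT', cS', cT'⟩ := hbase j' S' T' m'.1
    have q := Finset.mem_filter.1 m.2
    have q' := Finset.mem_filter.1 m'.2
    have qp := Finset.mem_product.1 q.1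
    have qp' := Finset.mem_product.1 q'.1
    have hsum : a + ∑ x ∈ S, x + (b' + ∑ x ∈ T', x) = a' + ∑ x ∈ S', x + (b + ∑ x ∈ T, x) := by
      simp only [f] at hff
      have h1 : ((a + ∑ x ∈ S, x + (b' + ∑ x ∈ T', x) : ℕ) : ℤ) =
          ((a' + ∑ x ∈ S', x + (b + ∑ x ∈ T, x) : ℕ) : ℤ) := by
        push_cast
        linarith
      exact Nat.cast_injective h1
    obtain ⟨rfl, rfl, rfl, rfl, rfl⟩ := uniq hk hA hL hP hR hPR hS hS' hT hT' cS cS' cT cT'
      qp.1 qp'.1 qp.2 qp'.2 q.2.1 q'.2.1 hsum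
    rfl
  have hle : total.card ≤ (Finset.Icc (-(W : ℤ)) W).card :=
    Finset.card_le_card_of_injOn f hmaps hinj
  rw [Int.card_Icc] at hle
  have h5 : total.card ≤ 2 * W + 1 := by omega
  exact_mod_cast h5

end Pool.Agent.BHS
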