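import Pool.Agent.helper22.BHS.Light

/-! # MP_d7d65f: few scales with small energy increment -/

set_option autoImplicit false

open Finset

namespace Pool.Agent.BHS

open Classical in
/-- the elements of `A` below `2 ^ i` -/
noncomputable def low (A : Set ℕ) (i : ℕ) : Finset ℕ := (range (2 ^ i)).filter (fun n => n ∈ A)

lemma mem_low {A : Set ℕ} {i n : ℕ} : n ∈ low A i ↔ n < 2 ^ i ∧ n ∈ A := by
  classical
  unfold low
  simp only [Finset.mem_filter, Finset.mem_range]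

lemma low_card (A : Set ℕ) (i : ℕ) :
    ((A ∩ Set.Icc 1 (2 ^ i)).ncard : ℝ) ≤ ((low A (i + 1)).card : ℝ) := by
  have h1 : A ∩ Set.Icc 1 (2 ^ i) ⊆ (low A (i + 1) : Set ℕ) := by
    intro n hn
    rw [Finset.mem_coe, mem_low]
    have h2 : (2 : ℕ) ^ i < 2 ^ (i + 1) := Nat.pow_lt_pow_right (by norm_num) (by omega)
    exact ⟨lt_of_le_of_lt hn.2.2 h2, hn.1⟩
  have h2 := Set.ncard_le_ncard h1 (Finset.finite_toSet _)
  rw [Set.ncard_coe_finset] at h2
  exact_mod_cast h2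

lemma halves (B : Finset ℕ) : ∃ P R : Finset ℕ, P ⊆ B ∧ R ⊆ B ∧ Disjoint P R ∧
    P.card = B.card / 2 ∧ R.card = B.card / 2 := by
  classical
  obtain ⟨P, hP, hPc⟩ := Finset.exists_subset_card_eq (s := B) (n := B.card / 2) (by omega)
  have h1 : (B \ P).card = B.card - B.card / 2 := by
    rw [Finset.card_sdiff_of_subset hP, hPc]
  obtain ⟨R, hR, hRc⟩ := Finset.exists_subset_card_eq (s := B \ P) (n := B.card / 2) (by omega)
  refine ⟨P, R, hP, hR.trans Finset.sdiff_subset, ?_, hPc, hRc⟩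
  rw [Finset.disjoint_left]
  intro x hx hx2
  exact (Finset.mem_sdiff.1 (hR hx2)).2 hx

/-- the coefficient of the halves -/
noncomputable def bet (k : ℕ) (δ : ℝ) (Q : ℕ) : ℝ := δ / 6 / 2 ^ (Q + k + 3)

/-- the bound of the number of the scales -/
noncomputable def KK (k : ℕ) (δ : ℝ) (Q : ℕ) : ℝ :=
  40 * (((k - 1).factorial : ℝ) * ((k - 2).factorial : ℝ)) / (δ ^ 2 * bet k δ Q ^ (2 * k - 3))

lemma KK_nonneg (k : ℕ) {δ : ℝ} (hδ : 0 < δ) (Q : ℕ) : 0 ≤ KK k δ Q := by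
  unfold KK bet
  positivity

lemma choose_ge {p r : ℕ} {y : ℝ} (hy : 0 ≤ y) (hyp : y ≤ ((p + 1 - r : ℕ) : ℝ)) :
    y ^ r / (r.factorial : ℝ) ≤ ((p.choose r : ℕ) : ℝ) := by
  refine le_trans ?_ (Nat.pow_le_choose (α := ℝ) r p)
  exact div_le_div_of_nonneg_right (pow_le_pow_left₀ hy hyp r) (Nat.cast_nonneg _)

/-- the lower bound of the number of pairs -/
lemma pairs_ge {L : Finset ℕ} {j m s : ℕ} (h1 : m + 2 ≤ s) (h2 : s ≤ j)
    (hL : ∀ n ∈ L, 2 ^ j ≤ n ∧ n < 2 ^ (j + 1)) (y : ℤ) (hy : |y| ≤ 2 ^ (s - 2))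
    {δ Λ x : ℝ} (hδ : 0 < δ) (hΛ : 0 < Λ) (hx : 0 < x) (hLc : δ * x ≤ (L.card : ℝ))
    (hLu : 8 * (L.card : ℝ) * 2 ^ (j - m) ≤ δ ^ 2 * x ^ 2)
    (hem : en L j m ≤ Λ * x ^ 2)
    (hinc : en L j m / x ^ 2 - en L j s / x ^ 2 ≤ δ ^ 4 / (64 * Λ)) :
    (1 / 2 ^ (j - m) : ℝ) * (δ ^ 2 / 8 * x ^ 2) ≤
      (((L ×ˢ L).filter (fun q : ℕ × ℕ => q.1 ≠ q.2 ∧
        |(q.1 : ℤ) - q.2 + y| ≤ ((2 ^ (m + 1) : ℕ) : ℤ))).card : ℝ) := by
  classical
  have hp := pairs L j m s h1 h2 hL y hy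
  set F₁ := (L ×ˢ L).filter (fun q : ℕ × ℕ => |(q.1 : ℤ) - q.2 + y| ≤ ((2 ^ (m + 1) : ℕ) : ℤ)) with hF₁
  set F₂ := (L ×ˢ L).filter (fun q : ℕ × ℕ => q.1 ≠ q.2 ∧
        |(q.1 : ℤ) - q.2 + y| ≤ ((2 ^ (m + 1) : ℕ) : ℤ)) with hF₂
  have hcard : (F₁.card : ℝ) ≤ F₂.card + L.card := by
    have h3 : F₁ ⊆ F₂ ∪ L.image (fun a => (a, a)) := by
      rintro ⟨a, b⟩ hq
      obtain ⟨hq1, hq2⟩ := Finset.mem_filter.1 hq
      rw [Finset.mem_union]
      by_cases hab : a = b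
      · right
        refine Finset.mem_image.2 ⟨a, (Finset.mem_product.1 hq1).1, ?_⟩
        rw [hab]
      · left
        exact Finset.mem_filter.2 ⟨hq1, hab, hq2⟩
    have h4 := (Finset.card_le_card h3).trans (Finset.card_union_le _ _)
    have h5 : (L.image (fun a => (a, a))).card ≤ L.card := Finset.card_image_le
    have h6 : F₁.card ≤ F₂.card + L.card := by omega
    exact_mod_cast h6
  have hx2 : 0 < x ^ 2 := by positivity
  have hes : δ ^ 2 * x ^ 2 ≤ en L j s := by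
    refine le_trans ?_ (en_ge L j s h2 hL)
    rw [← mul_pow]
    exact pow_le_pow_left₀ (by positivity) hLc 2
  have hms : en L j m - en L j s ≤ δ ^ 4 / (64 * Λ) * x ^ 2 := by
    rw [← sub_div, div_le_iff₀ hx2] at hinc
    exact hinc
  have hms0 : 0 ≤ en L j m - en L j s := by
    have := en_mono L j m s (by omega) h2
    linarith
  have hem0 := en_nonneg L j m
  have hsq : Real.sqrt (en L j m) * Real.sqrt (en L j m - en L j s) ≤ δ ^ 2 / 8 * x ^ 2 := by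
    rw [← Real.sqrt_mul hem0]
    apply Real.sqrt_le_iff.2
    refine ⟨by positivity, ?_⟩
    have h3 : en L j m * (en L j m - en L j s) ≤ (Λ * x ^ 2) * (δ ^ 4 / (64 * Λ) * x ^ 2) :=
      mul_le_mul hem hms hms0 (by positivity)
    refine h3.trans (le_of_eq ?_)
    field_simp
    ring
  have hpos : (0 : ℝ) < 1 / 2 ^ (j - m) := by positivity
  have h3 : (1 / 2 ^ (j - m) : ℝ) * (δ ^ 2 / 4 * x ^ 2) ≤ (1 / 2 ^ (j - m) : ℝ) * (en L j s / 2 -
      2 * Real.sqrt (en L j m) * Real.sqrt (en L j m - en L j s)) := by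
    refine mul_le_mul_of_nonneg_left ?_ hpos.le
    nlinarith
  have h4 : (L.card : ℝ) ≤ (1 / 2 ^ (j - m) : ℝ) * (δ ^ 2 / 8 * x ^ 2) := by
    rw [one_div, inv_mul_eq_div, le_div_iff₀ (by positivity)]
    linarith
  have h5 : (1 / 2 ^ (j - m) : ℝ) * (δ ^ 2 / 4 * x ^ 2) =
      (1 / 2 ^ (j - m) : ℝ) * (δ ^ 2 / 8 * x ^ 2) + (1 / 2 ^ (j - m) : ℝ) * (δ ^ 2 / 8 * x ^ 2) := by
    ring
  linarith

/-- The bound (*): few scales with a small energy increment. -/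
lemma few {k : ℕ} (hk : 2 ≤ k) {A : Set ℕ} (hA : IsBh (2 * k - 1) A) {δ Λ : ℝ} (hδ : 0 < δ)
    (hΛ : 0 < Λ) {m0 M : ℕ} (hm0 : k + 3 ≤ m0)
    (hb1 : 8 * CC (2 * k - 1) * 2 ^ M ≤ δ ^ 2 * X (2 * k - 1) m0)
    (hb2 : 6 * (k : ℝ) ≤ δ * X (2 * k - 1) (m0 - (k + 1)))
    (hdens : ∀ i, m0 - (k + 1) ≤ i → i ≤ m0 + M →
      δ * X (2 * k - 1) i ≤ ((A ∩ Set.Icc 1 (2 ^ i)).ncard : ℝ))
    {N : Finset ℕ} (hN : ∀ j ∈ N, m0 ≤ j ∧ j < m0 + M) {L : ℕ → Finset ℕ}
    (hL : ∀ j, L j ⊆ shell A j)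
    (hLc : ∀ j ∈ N, δ * X (2 * k - 1) j ≤ ((L j).card : ℝ))
    (hLe : ∀ j ∈ N, ∀ m, m0 ≤ m → m ≤ j → en (L j) j m ≤ Λ * X (2 * k - 1) j ^ 2)
    (Q m : ℕ) (hm : m0 ≤ m) (_hmM : m < m0 + M) :
    ((N.filter (fun j => m + Q + 2 ≤ j ∧ en (L j) j m / X (2 * k - 1) j ^ 2 -
      en (L j) j (j - Q) / X (2 * k - 1) j ^ 2 ≤ δ ^ 4 / (64 * Λ))).card : ℝ) ≤ KK k δ Q := by
  classical
  set h := 2 * k - 1 with hh
  have hh1 : 1 ≤ h := by omega
  set G := N.filter (fun j => m + Q + 2 ≤ j ∧ en (L j) j m / X h j ^ 2 -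
      en (L j) j (j - Q) / X h j ^ 2 ≤ δ ^ 4 / (64 * Λ)) with hG
  choose P R hP hR hPR hPc hRc using fun i => halves (low A i)
  have hcount := count hk hA (L := L) (P := fun j => P (j - Q - k - 2)) (R := fun j => R (j - Q - k - 2))
    (fun j x hx => by
      have h1 := mem_shell.1 (hL j hx)
      exact ⟨h1.2, h1.1⟩)
    (fun j x hx => by
      have h1 := mem_low.1 (hP _ hx)
      have h2 : 2 ^ (j - Q - k - 2) ≤ 2 ^ j := Nat.pow_le_pow_right (by norm_num) (by omega)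
      exact ⟨h1.2, lt_of_lt_of_le h1.1 h2⟩)
    (fun j x hx => by
      have h1 := mem_low.1 (hR _ hx)
      have h2 : 2 ^ (j - Q - k - 2) ≤ 2 ^ j := Nat.pow_le_pow_right (by norm_num) (by omega)
      exact ⟨h1.2, lt_of_lt_of_le h1.1 h2⟩)
    (fun j => hPR _) G (2 ^ (m + 1)) (fun j => (1 / 2 ^ (j - m) : ℝ) * (δ ^ 2 / 8 * X h j ^ 2))
    (by
      intro j hj S hS T hT cS cT
      obtain ⟨hj1, hj2, hj3⟩ := Finset.mem_filter.1 hj
      obtain ⟨hj4, hj5⟩ := hN j hj1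
      have hXj := X_pos h j
      refine pairs_ge (s := j - Q) (by omega) (by omega)
        (fun n hn => (mem_shell.1 (hL j hn)).1) _ ?_ hδ hΛ hXj (hLc j hj1) ?_
        (hLe j hj1 m hm (by omega)) hj3
      · -- the size of the shift
        have hbd : ∀ (U : Finset ℕ) (r : ℕ), (∀ x ∈ U, x < 2 ^ (j - Q - k - 2)) → U.card = r → r ≤ k →
            0 ≤ ∑ x ∈ U, (x : ℤ) ∧ ∑ x ∈ U, (x : ℤ) ≤ 2 ^ (j - Q - 2) := by
          intro U r hU hr hrk
          refine ⟨Finset.sum_nonneg (fun x _ => Int.natCast_nonneg x), ?_⟩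
          have h1 : ∑ x ∈ U, x ≤ r * 2 ^ (j - Q - k - 2) := by
            have h2 := Finset.sum_le_card_nsmul U (fun x => x) (2 ^ (j - Q - k - 2))
              (fun x hx => (hU x hx).le)
            rw [hr, smul_eq_mul] at h2
            exact h2
          have h2 : r ≤ 2 ^ k := hrk.trans (Nat.lt_two_pow_self).le
          have h3 : 2 ^ k * 2 ^ (j - Q - k - 2) = 2 ^ (j - Q - 2) := by
            rw [← pow_add]
            congr 1
            omega
          have h4 : ∑ x ∈ U, x ≤ 2 ^ (j - Q - 2) := by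
            rw [← h3]
            exact h1.trans (Nat.mul_le_mul_right _ h2)
          have h5 : ((∑ x ∈ U, x : ℕ) : ℤ) ≤ ((2 ^ (j - Q - 2) : ℕ) : ℤ) := Int.ofNat_le.2 h4
          rw [Nat.cast_sum] at h5
          push_cast at h5
          exact h5
        obtain ⟨s1, s2⟩ := hbd S (k - 1) (fun x hx => (mem_low.1 (hP _ (hS hx))).1) cS (by omega)
        obtain ⟨t1, t2⟩ := hbd T (k - 2) (fun x hx => (mem_low.1 (hR _ (hT hx))).1) cT (by omega)
        rw [abs_le]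
        constructor <;> linarith
      · -- the diagonal
        have h1 : ((L j).card : ℝ) ≤ CC h * X h j :=
          (Nat.cast_le.2 (Finset.card_le_card (hL j))).trans (shell_card hh1 hA j)
        have h2 : (2 : ℝ) ^ (j - m) ≤ 2 ^ M := pow_le_pow_right₀ (by norm_num) (by omega)
        have h3 : X h m0 ≤ X h j := X_mono h hj4
        have hC := CC_pos hh1
        have h4 : 8 * CC h * 2 ^ (j - m) ≤ δ ^ 2 * X h j := by
          have h5 : 8 * CC h * 2 ^ (j - m) ≤ 8 * CC h * 2 ^ M :=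
            mul_le_mul_of_nonneg_left h2 (by linarith)
          have h6 : δ ^ 2 * X h m0 ≤ δ ^ 2 * X h j := mul_le_mul_of_nonneg_left h3 (by positivity)
          linarith
        have h5 : 8 * ((L j).card : ℝ) * 2 ^ (j - m) ≤ 8 * (CC h * X h j) * 2 ^ (j - m) := by
          have : (0 : ℝ) ≤ 2 ^ (j - m) := by positivity
          nlinarith
        have h6 : 8 * (CC h * X h j) * 2 ^ (j - m) = (8 * CC h * 2 ^ (j - m)) * X h j := by ring
        have h7 : (8 * CC h * 2 ^ (j - m)) * X h j ≤ (δ ^ 2 * X h j) * X h j :=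
          mul_le_mul_of_nonneg_right h4 hXj.le
        nlinarith)
  -- lower bound of each term
  set c₁ : ℝ := bet k δ Q ^ (2 * k - 3) / (((k - 1).factorial : ℝ) * ((k - 2).factorial : ℝ)) with hc₁
  have hbet : 0 < bet k δ Q := by
    unfold bet
    positivity
  have hc₁0 : 0 < c₁ := by positivity
  have hterm : ∀ j ∈ G, c₁ * (δ ^ 2 / 8) * 2 ^ m ≤
      ((((P (j - Q - k - 2)).card.choose (k - 1) : ℕ) : ℝ) *
        (((R (j - Q - k - 2)).card.choose (k - 2) : ℕ) : ℝ)) *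
        ((1 / 2 ^ (j - m) : ℝ) * (δ ^ 2 / 8 * X h j ^ 2)) := by
    intro j hj
    obtain ⟨hj1, hj2, hj3⟩ := Finset.mem_filter.1 hj
    obtain ⟨hj4, hj5⟩ := hN j hj1
    have hXj := X_pos h j
    set i := j - Q - k - 3 with hi
    have hi1 : j - Q - k - 2 = i + 1 := by omega
    have hi2 : j = i + (Q + k + 3) := by omega
    rw [hi1, hPc, hRc]
    set b := (low A (i + 1)).card with hb
    have hbi : δ * X h i ≤ (b : ℝ) := (hdens i (by omega) (by omega)).trans (low_card A i)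
    have hb6 : 6 * k ≤ b := by
      have h1 : X h (m0 - (k + 1)) ≤ X h i := X_mono h (by omega)
      have h2 : 6 * (k : ℝ) ≤ b := by
        have h3 := mul_le_mul_of_nonneg_left h1 hδ.le
        linarith
      exact_mod_cast h2
    have hXi : X h j ≤ X h i * 2 ^ (Q + k + 3) := by
      have h1 : X h j = X h i * X h (Q + k + 3) := by
        rw [← X_add, ← hi2]
      rw [h1]
      exact mul_le_mul_of_nonneg_left (X_le hh1 _) (X_pos h i).le
    have hy : bet k δ Q * X h j ≤ (b : ℝ) / 6 := by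
      unfold bet
      have h1 : δ / 6 / 2 ^ (Q + k + 3) * X h j ≤ δ / 6 / 2 ^ (Q + k + 3) * (X h i * 2 ^ (Q + k + 3)) :=
        mul_le_mul_of_nonneg_left hXi (by positivity)
      have h2 : δ / 6 / 2 ^ (Q + k + 3) * (X h i * 2 ^ (Q + k + 3)) = δ * X h i / 6 := by
        field_simp
      linarith
    have hp1 : ∀ r, r ≤ k - 1 → bet k δ Q * X h j ≤ ((b / 2 + 1 - r : ℕ) : ℝ) := by
      intro r hr
      refine hy.trans ?_
      rw [div_le_iff₀ (by norm_num)]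
      have h1 : b ≤ (b / 2 + 1 - r) * 6 := by omega
      exact_mod_cast h1
    have hy0 : 0 ≤ bet k δ Q * X h j := by positivity
    have c1 := choose_ge hy0 (hp1 (k - 1) le_rfl)
    have c2 := choose_ge hy0 (hp1 (k - 2) (by omega))
    have hprod : c₁ * X h j ^ (2 * k - 3) ≤ (((b / 2).choose (k - 1) : ℕ) : ℝ) *
        (((b / 2).choose (k - 2) : ℕ) : ℝ) := by
      refine le_trans (le_of_eq ?_) (mul_le_mul c1 c2 (by positivity) (by positivity))
      have h1 : 2 * k - 3 = (k - 1) + (k - 2) := by omega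
      rw [hc₁, h1, pow_add, pow_add, mul_pow, mul_pow]
      field_simp
    have hXh : X h j ^ (2 * k - 3) * X h j ^ 2 = 2 ^ (j - m) * 2 ^ m := by
      rw [← pow_add, ← pow_add]
      have h1 : 2 * k - 3 + 2 = h := by omega
      have h2 : j - m + m = j := by omega
      rw [h1, h2, X_pow hh1]
    have h1 : c₁ * (δ ^ 2 / 8) * 2 ^ m = (c₁ * X h j ^ (2 * k - 3)) *
        ((1 / 2 ^ (j - m) : ℝ) * (δ ^ 2 / 8 * X h j ^ 2)) := by
      have h3 : (c₁ * X h j ^ (2 * k - 3)) * ((1 / 2 ^ (j - m) : ℝ) * (δ ^ 2 / 8 * X h j ^ 2)) =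
          c₁ * (δ ^ 2 / 8) * ((X h j ^ (2 * k - 3) * X h j ^ 2) / 2 ^ (j - m)) := by ring
      rw [h3, hXh]
      field_simp
    rw [h1]
    exact mul_le_mul_of_nonneg_right hprod (by positivity)
  have hsum : (G.card : ℝ) * (c₁ * (δ ^ 2 / 8) * 2 ^ m) ≤ 5 * 2 ^ m := by
    have h1 := Finset.card_nsmul_le_sum G _ _ hterm
    rw [nsmul_eq_mul] at h1
    refine h1.trans (hcount.trans ?_)
    push_cast
    have h2 : (1 : ℝ) ≤ 2 ^ m := one_le_pow₀ (by norm_num)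
    rw [pow_succ]
    linarith
  have h2m : (0 : ℝ) < 2 ^ m := by positivity
  have hfin : (G.card : ℝ) * (c₁ * (δ ^ 2 / 8)) ≤ 5 := by
    have h1 : (G.card : ℝ) * (c₁ * (δ ^ 2 / 8)) * 2 ^ m ≤ 5 * 2 ^ m := by
      rw [mul_assoc]
      exact hsum
    exact le_of_mul_le_mul_right h1 h2m
  have hKK : KK k δ Q = 5 / (c₁ * (δ ^ 2 / 8)) := by
    unfold KK
    rw [hc₁]
    field_simp
    ring
  rw [hKK, le_div_iff₀ (by positivity)]
  exact hfin

end Pool.Agent.BHS
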