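import Pool.Agent.helper22.BHS.Corr

/-! # MP_d7d65f: one dyadic shell -/

set_option autoImplicit false

open Finset

namespace Pool.Agent.BHS

/-- number of elements of `L` in the cell `v` of length `2 ^ m` -/
noncomputable def wt (L : Finset ℕ) (m v : ℕ) : ℝ := ((L.filter (fun n => n / 2 ^ m = v)).card : ℝ)

lemma wt_nonneg (L : Finset ℕ) (m v : ℕ) : 0 ≤ wt L m v := Nat.cast_nonneg _

lemma wt_coarse (L : Finset ℕ) (m s V : ℕ) (hms : m ≤ s) :
    coarse (2 ^ (s - m)) (wt L m) V = wt L s V := by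
  classical
  unfold coarse wt
  rw [← Nat.cast_sum]
  congr 1
  have hq : 0 < 2 ^ (s - m) := by positivity
  have hpow : 2 ^ s = 2 ^ m * 2 ^ (s - m) := by
    rw [← pow_add]
    congr 1
    omega
  have h1 := Finset.card_eq_sum_card_fiberwise (s := L.filter (fun n => n / 2 ^ s = V))
    (t := range (2 ^ (s - m))) (f := fun n => (n / 2 ^ m) % 2 ^ (s - m))
    (fun n _ => Finset.mem_coe.2 (Finset.mem_range.2 (Nat.mod_lt _ hq)))
  rw [h1]
  refine Finset.sum_congr rfl (fun r hr => ?_)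
  rw [Finset.filter_filter]
  congr 1
  refine Finset.filter_congr (fun n _ => ?_)
  have hr' := Finset.mem_range.1 hr
  have h2 : n / 2 ^ s = (n / 2 ^ m) / 2 ^ (s - m) := by
    rw [hpow, Nat.div_div_eq_div_mul]
  rw [h2]
  have h3 := Nat.div_add_mod (n / 2 ^ m) (2 ^ (s - m))
  constructor
  · intro h
    rw [h, Nat.mul_comm V, Nat.mul_add_div hq, Nat.mul_add_mod, Nat.div_eq_of_lt hr',
      Nat.mod_eq_of_lt hr']
    exact ⟨by ring, rfl⟩
  · rintro ⟨h4, h5⟩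
    rw [h4, h5] at h3
    rw [← h3]
    ring

lemma wt_sum (L : Finset ℕ) (m N : ℕ) (hN : ∀ n ∈ L, n / 2 ^ m < N) :
    ∑ v ∈ range N, wt L m v = L.card := by
  classical
  unfold wt
  rw [← Nat.cast_sum]
  congr 1
  exact (Finset.card_eq_sum_card_fiberwise (s := L) (t := range N) (f := fun n => n / 2 ^ m)
    (fun n hn => Finset.mem_coe.2 (Finset.mem_range.2 (hN n hn)))).symm

lemma div_lt_shell {n j m : ℕ} (hm : m ≤ j) (hn : n < 2 ^ (j + 1)) : n / 2 ^ m < 2 ^ (j + 1 - m) := by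
  rw [Nat.div_lt_iff_lt_mul (by positivity), ← pow_add]
  have : j + 1 - m + m = j + 1 := by omega
  rw [this]
  exact hn

lemma wt_zero (L : Finset ℕ) (j m v : ℕ) (hm : m ≤ j) (hL : ∀ n ∈ L, n < 2 ^ (j + 1))
    (hv : 2 ^ (j + 1 - m) ≤ v) : wt L m v = 0 := by
  unfold wt
  rw [Nat.cast_eq_zero, Finset.card_eq_zero, Finset.filter_eq_empty_iff]
  intro n hn h
  have := div_lt_shell hm (hL n hn)
  omega

/-- the energy of `L` at the resolution `2 ^ m` -/
noncomputable def en (L : Finset ℕ) (j m : ℕ) : ℝ :=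
  2 ^ (j - m) * ∑ v ∈ range (2 ^ (j + 1 - m)), wt L m v ^ 2

lemma en_nonneg (L : Finset ℕ) (j m : ℕ) : 0 ≤ en L j m :=
  mul_nonneg (by positivity) (Finset.sum_nonneg (fun _ _ => sq_nonneg _))

lemma pow_split {j m s : ℕ} (h1 : m ≤ s) (h2 : s ≤ j) :
    2 ^ (j + 1 - m) = 2 ^ (j + 1 - s) * 2 ^ (s - m) := by
  rw [← pow_add]
  congr 1
  omega

lemma en_mono (L : Finset ℕ) (j m s : ℕ) (h1 : m ≤ s) (h2 : s ≤ j) : en L j s ≤ en L j m := by
  unfold en
  have h3 := energy_mono (wt L m) (2 ^ (s - m)) (2 ^ (j + 1 - s)) (by positivity)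
  rw [← pow_split h1 h2] at h3
  have h4 : ∑ V ∈ range (2 ^ (j + 1 - s)), coarse (2 ^ (s - m)) (wt L m) V ^ 2 =
      ∑ V ∈ range (2 ^ (j + 1 - s)), wt L s V ^ 2 :=
    Finset.sum_congr rfl (fun V _ => by rw [wt_coarse L m s V h1])
  rw [h4] at h3
  have h5 : (2 : ℝ) ^ (j - m) = 2 ^ (j - s) * 2 ^ (s - m) := by
    rw [← pow_add]
    congr 1
    omega
  rw [h5, mul_assoc]
  refine mul_le_mul_of_nonneg_left ?_ (by positivity)
  have h6 := mul_le_mul_of_nonneg_left h3 (by positivity : (0 : ℝ) ≤ 2 ^ (s - m))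
  have h7 : (2 : ℝ) ^ (s - m) * ((1 / ((2 ^ (s - m) : ℕ) : ℝ)) *
      ∑ V ∈ range (2 ^ (j + 1 - s)), wt L s V ^ 2) = ∑ V ∈ range (2 ^ (j + 1 - s)), wt L s V ^ 2 := by
    push_cast
    field_simp
  rw [h7] at h6
  exact h6

lemma en_top (L : Finset ℕ) (j : ℕ) (hL : ∀ n ∈ L, 2 ^ j ≤ n ∧ n < 2 ^ (j + 1)) :
    en L j j = (L.card : ℝ) ^ 2 := by
  unfold en
  have h1 : j + 1 - j = 1 := by omega
  rw [Nat.sub_self, pow_zero, one_mul, h1, pow_one, Finset.sum_range_succ, Finset.sum_range_one]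
  have h2 : wt L j 0 = 0 := by
    unfold wt
    rw [Nat.cast_eq_zero, Finset.card_eq_zero, Finset.filter_eq_empty_iff]
    intro n hn h
    have := Nat.div_pos (hL n hn).1 (by positivity)
    omega
  have h3 : wt L j 1 = L.card := by
    unfold wt
    rw [Finset.filter_true_of_mem]
    intro n hn
    obtain ⟨h4, h5⟩ := hL n hn
    rw [Nat.div_eq_iff (by positivity)]
    rw [pow_succ] at h5
    omega
  rw [h2, h3]
  ring

lemma en_ge (L : Finset ℕ) (j s : ℕ) (hs : s ≤ j) (hL : ∀ n ∈ L, 2 ^ j ≤ n ∧ n < 2 ^ (j + 1)) :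
    (L.card : ℝ) ^ 2 ≤ en L j s := by
  rw [← en_top L j hL]
  exact en_mono L j s j hs le_rfl

lemma en_le (L : Finset ℕ) (j m0 m : ℕ) (h0 : m0 ≤ m) (hm : m ≤ j)
    (hL : ∀ n ∈ L, 2 ^ j ≤ n ∧ n < 2 ^ (j + 1)) (c : ℝ)
    (hc : ∀ v, wt L m0 v ≤ c / 2 ^ (j - m0)) : en L j m ≤ c * L.card := by
  have h1 : ∀ v, wt L m v ≤ c / 2 ^ (j - m) := by
    intro v
    rw [← wt_coarse L m0 m v h0]
    unfold coarse
    have h2 := Finset.sum_le_card_nsmul (range (2 ^ (m - m0)))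
      (fun r => wt L m0 (v * 2 ^ (m - m0) + r)) (c / 2 ^ (j - m0)) (fun r _ => hc _)
    rw [Finset.card_range, nsmul_eq_mul] at h2
    refine h2.trans (le_of_eq ?_)
    have h3 : (2 : ℝ) ^ (j - m0) = 2 ^ (j - m) * 2 ^ (m - m0) := by
      rw [← pow_add]
      congr 1
      omega
    rw [h3]
    push_cast
    field_simp
  unfold en
  have h2 : ∑ v ∈ range (2 ^ (j + 1 - m)), wt L m v ^ 2 ≤
      ∑ v ∈ range (2 ^ (j + 1 - m)), (c / 2 ^ (j - m)) * wt L m v := by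
    refine Finset.sum_le_sum (fun v _ => ?_)
    rw [sq]
    exact mul_le_mul_of_nonneg_right (h1 v) (wt_nonneg L m v)
  rw [← Finset.mul_sum, wt_sum L m _ (fun n hn => div_lt_shell hm (hL n hn).2)] at h2
  have h3 := mul_le_mul_of_nonneg_left h2 (by positivity : (0 : ℝ) ≤ 2 ^ (j - m))
  refine h3.trans (le_of_eq ?_)
  field_simp

/-- pairs of elements at given distance -/
lemma pairs (L : Finset ℕ) (j m s : ℕ) (h1 : m + 2 ≤ s) (h2 : s ≤ j)
    (hL : ∀ n ∈ L, 2 ^ j ≤ n ∧ n < 2 ^ (j + 1)) (y : ℤ) (hy : |y| ≤ 2 ^ (s - 2)) :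
    (1 / 2 ^ (j - m) : ℝ) * (en L j s / 2 -
      2 * Real.sqrt (en L j m) * Real.sqrt (en L j m - en L j s)) ≤
    (((L ×ˢ L).filter (fun q : ℕ × ℕ => |(q.1 : ℤ) - q.2 + y| ≤ ((2 ^ (m + 1) : ℕ) : ℤ))).card : ℝ) := by
  classical
  have hm : m ≤ s := by omega
  set t : ℕ := y.natAbs / 2 ^ m with ht
  have hq : 0 < 2 ^ (s - m) := by positivity
  have hyn : y.natAbs ≤ 2 ^ (s - 2) := by
    have : ((y.natAbs : ℕ) : ℤ) ≤ ((2 ^ (s - 2) : ℕ) : ℤ) := by
      rw [Int.natCast_natAbs]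
      push_cast
      exact hy
    exact_mod_cast this
  have ht2 : 2 * t ≤ 2 ^ (s - m) := by
    have h3 : t ≤ 2 ^ (s - 2) / 2 ^ m := Nat.div_le_div_right hyn
    have h4 : 2 ^ (s - 2) / 2 ^ m = 2 ^ (s - 2 - m) := by
      rw [Nat.pow_div (by omega) (by norm_num)]
    have h5 : 2 ^ (s - m) = 2 * 2 ^ (s - 1 - m) := by
      rw [← pow_succ']
      congr 1
      omega
    have h6 : 2 ^ (s - 2 - m) ≤ 2 ^ (s - 1 - m) := Nat.pow_le_pow_right (by norm_num) (by omega)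
    omega
  -- the correlation
  have hcorr := corr (wt L m) (2 ^ (s - m)) (2 ^ (j + 1 - s)) t hq (wt_nonneg L m)
    (fun v hv => wt_zero L j m v (by omega) (fun n hn => (hL n hn).2) (by
      rw [pow_split hm h2]; exact hv)) ht2
  rw [← pow_split hm h2] at hcorr
  have h4 : ∑ V ∈ range (2 ^ (j + 1 - s)), coarse (2 ^ (s - m)) (wt L m) V ^ 2 =
      ∑ V ∈ range (2 ^ (j + 1 - s)), wt L s V ^ 2 :=
    Finset.sum_congr rfl (fun V _ => by rw [wt_coarse L m s V hm])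
  rw [h4] at hcorr
  have hS : ∑ V ∈ range (2 ^ (j + 1 - s)), wt L s V ^ 2 = en L j s / 2 ^ (j - s) := by
    unfold en
    field_simp
  have hM : ∑ v ∈ range (2 ^ (j + 1 - m)), wt L m v ^ 2 = en L j m / 2 ^ (j - m) := by
    unfold en
    field_simp
  rw [hS, hM] at hcorr
  have h5 : (2 : ℝ) ^ (j - m) = 2 ^ (j - s) * 2 ^ (s - m) := by
    rw [← pow_add]
    congr 1
    omega
  have hlhs : (1 / 2 ^ (j - m) : ℝ) * (en L j s / 2 -
      2 * Real.sqrt (en L j m) * Real.sqrt (en L j m - en L j s)) =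
      (1 / (2 * ((2 ^ (s - m) : ℕ) : ℝ)) : ℝ) * (en L j s / 2 ^ (j - s)) -
      2 * Real.sqrt (en L j m / 2 ^ (j - m)) *
        Real.sqrt (en L j m / 2 ^ (j - m) - (1 / ((2 ^ (s - m) : ℕ) : ℝ)) * (en L j s / 2 ^ (j - s))) := by
    have h6 : en L j m / 2 ^ (j - m) - (1 / ((2 ^ (s - m) : ℕ) : ℝ)) * (en L j s / 2 ^ (j - s)) =
        (en L j m - en L j s) / 2 ^ (j - m) := by
      rw [h5]
      push_cast
      field_simp
    rw [h6, Real.sqrt_div (en_nonneg L j m), Real.sqrt_div (by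
      have := en_mono L j m s hm h2
      linarith)]
    have h7 : Real.sqrt (2 ^ (j - m)) * Real.sqrt (2 ^ (j - m)) = (2 : ℝ) ^ (j - m) :=
      Real.mul_self_sqrt (by positivity)
    have h8 : 2 * (Real.sqrt (en L j m) / Real.sqrt (2 ^ (j - m))) *
        (Real.sqrt (en L j m - en L j s) / Real.sqrt (2 ^ (j - m))) =
        2 * Real.sqrt (en L j m) * Real.sqrt (en L j m - en L j s) / 2 ^ (j - m) := by
      have h9 : Real.sqrt (2 ^ (j - m)) ≠ (0 : ℝ) := by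
        apply Real.sqrt_ne_zero'.2
        positivity
      have h10 : ∀ a b c : ℝ, c ≠ 0 → 2 * (a / c) * (b / c) = 2 * a * b / (c * c) := by
        intro a b c hc
        field_simp
      rw [h10 _ _ _ h9, h7]
    rw [h8, h5]
    push_cast
    field_simp
  rw [hlhs]
  refine hcorr.trans ?_
  -- the pairs
  have hcount : ∑ v ∈ range (2 ^ (j + 1 - m)), wt L m v * wt L m (v + t) =
      (((L ×ˢ L).filter (fun q : ℕ × ℕ => q.2 / 2 ^ m = q.1 / 2 ^ m + t)).card : ℝ) := by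
    have h9 := Finset.card_eq_sum_card_fiberwise
      (s := (L ×ˢ L).filter (fun q : ℕ × ℕ => q.2 / 2 ^ m = q.1 / 2 ^ m + t))
      (t := range (2 ^ (j + 1 - m))) (f := fun q : ℕ × ℕ => q.1 / 2 ^ m)
      (fun q hq' => by
        have h10 := (Finset.mem_product.1 (Finset.mem_filter.1 (Finset.mem_coe.1 hq')).1).1
        exact Finset.mem_coe.2 (Finset.mem_range.2 (div_lt_shell (by omega) (hL _ h10).2)))
    rw [h9, Nat.cast_sum]
    refine Finset.sum_congr rfl (fun v _ => ?_)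
    unfold wt
    rw [← Nat.cast_mul, ← Finset.card_product]
    congr 2
    ext ⟨a, b⟩
    simp only [Finset.mem_product, Finset.mem_filter]
    constructor
    · rintro ⟨⟨h11, h12⟩, h13, h14⟩
      exact ⟨⟨⟨h11, h13⟩, by rw [h12, h14]⟩, h12⟩
    · rintro ⟨⟨⟨h11, h13⟩, h14⟩, h12⟩
      exact ⟨⟨h11, h12⟩, h13, by rw [h14, h12]⟩
  rw [hcount]
  have hpm : (0 : ℤ) < ((2 ^ m : ℕ) : ℤ) := by positivity
  have h2m : ((2 ^ (m + 1) : ℕ) : ℤ) = 2 * ((2 ^ m : ℕ) : ℤ) := by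
    push_cast
    ring
  have hdiv : ∀ n : ℕ, ((n / 2 ^ m : ℕ) : ℤ) * ((2 ^ m : ℕ) : ℤ) ≤ n ∧
      (n : ℤ) < ((n / 2 ^ m : ℕ) : ℤ) * ((2 ^ m : ℕ) : ℤ) + ((2 ^ m : ℕ) : ℤ) := by
    intro n
    have h15 := Nat.div_add_mod n (2 ^ m)
    have h16 := Nat.mod_lt n (show 0 < 2 ^ m by positivity)
    constructor
    · have : n / 2 ^ m * 2 ^ m ≤ n := Nat.div_mul_le_self n _
      exact_mod_cast this
    · have : n < n / 2 ^ m * 2 ^ m + 2 ^ m := by
        rw [Nat.mul_comm (n / 2 ^ m)]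
        omega
      exact_mod_cast this
  have hty := hdiv y.natAbs
  rw [← ht] at hty
  rcases le_or_gt 0 y with hy0 | hy0
  · have hyabs : ((y.natAbs : ℕ) : ℤ) = y := by
      rw [Int.natCast_natAbs, abs_of_nonneg hy0]
    rw [hyabs] at hty
    refine Nat.cast_le.2 (Finset.card_le_card ?_)
    rintro ⟨a, b⟩ hab
    rw [Finset.mem_filter] at hab ⊢
    refine ⟨hab.1, ?_⟩
    have hab2 := hab.2
    simp only at hab2
    have ha := hdiv a
    have hb := hdiv b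
    rw [hab2] at hb
    simp only
    rw [h2m, abs_le]
    push_cast at ha hb hty ⊢
    constructor <;> nlinarith
  · have hyabs : ((y.natAbs : ℕ) : ℤ) = -y := by
      rw [Int.natCast_natAbs, abs_of_neg hy0]
    rw [hyabs] at hty
    refine Nat.cast_le.2 (Finset.card_le_card_of_injOn (fun q : ℕ × ℕ => (q.2, q.1)) ?_ ?_)
    · rintro ⟨a, b⟩ hab
      rw [Finset.mem_coe, Finset.mem_filter] at hab
      rw [Finset.mem_coe, Finset.mem_filter]
      have hp := Finset.mem_product.1 hab.1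
      refine ⟨Finset.mem_product.2 ⟨hp.2, hp.1⟩, ?_⟩
      have hab2 := hab.2
      simp only at hab2
      have ha := hdiv a
      have hb := hdiv b
      rw [hab2] at hb
      simp only
      rw [h2m, abs_le]
      push_cast at ha hb hty ⊢
      constructor <;> nlinarith
    · rintro ⟨a, b⟩ _ ⟨a', b'⟩ _ h17
      simp only [Prod.mk.injEq] at h17
      rw [h17.1, h17.2]

end Pool.Agent.BHS
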