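import Pool.Agent.helper22.BHS.Count
import Pool.Agent.helper22.BHS.Shell

/-! # MP_d7d65f: sizes of the shells and the light part of a nonsingular shell -/

set_option autoImplicit false

open Finset

namespace Pool.Agent.BHS

/-- `2 ^ (j / h)` -/
noncomputable def X (h j : ℕ) : ℝ := (2 : ℝ) ^ ((j : ℝ) / (h : ℝ))

lemma X_pos (h j : ℕ) : 0 < X h j := Real.rpow_pos_of_pos (by norm_num) _

lemma X_pow {h : ℕ} (hh : 1 ≤ h) (j : ℕ) : X h j ^ h = 2 ^ j := by
  have hh' : (h : ℝ) ≠ 0 := by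
    have : (1 : ℝ) ≤ h := by exact_mod_cast hh
    linarith
  unfold X
  rw [← Real.rpow_natCast, ← Real.rpow_mul (by norm_num), div_mul_cancel₀ _ hh', Real.rpow_natCast]

lemma X_add (h i j : ℕ) : X h (i + j) = X h i * X h j := by
  unfold X
  rw [← Real.rpow_add (by norm_num)]
  congr 1
  push_cast
  ring

lemma X_one_le (h j : ℕ) : 1 ≤ X h j := by
  unfold X
  exact Real.one_le_rpow (by norm_num) (by positivity)

lemma X_mono (h : ℕ) {i j : ℕ} (hij : i ≤ j) : X h i ≤ X h j := by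
  unfold X
  refine Real.rpow_le_rpow_of_exponent_le (by norm_num) ?_
  have : (i : ℝ) ≤ j := by exact_mod_cast hij
  exact div_le_div_of_nonneg_right this (Nat.cast_nonneg h)

lemma X_le {h : ℕ} (hh : 1 ≤ h) (i : ℕ) : X h i ≤ 2 ^ i := by
  unfold X
  rw [← Real.rpow_natCast]
  refine Real.rpow_le_rpow_of_exponent_le (by norm_num) ?_
  have hh' : (1 : ℝ) ≤ h := by exact_mod_cast hh
  exact div_le_self (Nat.cast_nonneg i) hh'

lemma X_large {h : ℕ} (hh : 1 ≤ h) (B : ℝ) : ∃ j₀ : ℕ, ∀ j, j₀ ≤ j → B ≤ X h j := by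
  obtain ⟨n, hn⟩ := exists_nat_ge B
  refine ⟨h * n, fun j hj => hn.trans ?_⟩
  refine le_trans ?_ (X_mono h hj)
  have hh' : (h : ℝ) ≠ 0 := by
    have : (1 : ℝ) ≤ h := by exact_mod_cast hh
    linarith
  have h1 : X h (h * n) = 2 ^ n := by
    unfold X
    push_cast
    rw [mul_div_cancel_left₀ _ hh', Real.rpow_natCast]
  rw [h1]
  exact_mod_cast (Nat.lt_two_pow_self (n := n)).le

open Classical in
/-- the elements of `A` in `[2 ^ j, 2 ^ (j + 1))` -/
noncomputable def shell (A : Set ℕ) (j : ℕ) : Finset ℕ :=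
  (Finset.Ico (2 ^ j) (2 ^ (j + 1))).filter (fun n => n ∈ A)

lemma mem_shell {A : Set ℕ} {j n : ℕ} : n ∈ shell A j ↔ (2 ^ j ≤ n ∧ n < 2 ^ (j + 1)) ∧ n ∈ A := by
  classical
  unfold shell
  simp only [Finset.mem_filter, Finset.mem_Ico]

lemma bh_choose {h : ℕ} (hh : 1 ≤ h) {A : Set ℕ} (hA : IsBh h A) (B : Finset ℕ)
    (hB : ∀ x ∈ B, x ∈ A) (N : ℕ) (hN : ∀ x ∈ B, x < N) : B.card.choose h ≤ h * N := by
  classical
  rw [← Finset.card_powersetCard, ← Finset.card_range (h * N)]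
  refine Finset.card_le_card_of_injOn (fun S => ∑ x ∈ S, x) ?_ ?_
  · intro S hS
    obtain ⟨h1, h2⟩ := Finset.mem_powersetCard.1 (Finset.mem_coe.1 hS)
    rw [Finset.mem_coe, Finset.mem_range]
    have hne : S.Nonempty := Finset.card_pos.1 (by omega)
    have h3 : ∑ x ∈ S, x < ∑ _x ∈ S, N :=
      Finset.sum_lt_sum_of_nonempty hne (fun x hx => hN x (h1 hx))
    rw [Finset.sum_const, h2, smul_eq_mul] at h3
    exact h3
  · intro S hS T hT hST
    obtain ⟨h1, h2⟩ := Finset.mem_powersetCard.1 (Finset.mem_coe.1 hS)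
    obtain ⟨h3, h4⟩ := Finset.mem_powersetCard.1 (Finset.mem_coe.1 hT)
    apply Finset.val_injective
    refine hA S.val T.val h2 h4 (fun x hx => hB x (h1 hx)) (fun x hx => hB x (h3 hx)) ?_
    rw [val_sum, val_sum]
    exact hST

/-- the constant of the size of the shells -/
noncomputable def CC (h : ℕ) : ℝ := h + 2 * h * (h.factorial : ℝ)

lemma CC_pos {h : ℕ} (hh : 1 ≤ h) : 1 ≤ CC h := by
  unfold CC
  have hh' : (1 : ℝ) ≤ h := by exact_mod_cast hh
  have : (0 : ℝ) ≤ 2 * h * (h.factorial : ℝ) := by positivity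
  linarith

lemma shell_card {h : ℕ} (hh : 1 ≤ h) {A : Set ℕ} (hA : IsBh h A) (j : ℕ) :
    ((shell A j).card : ℝ) ≤ CC h * X h j := by
  have h1 := bh_choose hh hA (shell A j) (fun x hx => (mem_shell.1 hx).2) (2 ^ (j + 1))
    (fun x hx => (mem_shell.1 hx).1.2)
  set b := (shell A j).card with hb
  have h2 := Nat.pow_le_choose (α := ℝ) h b
  have h3 : ((b.choose h : ℕ) : ℝ) ≤ h * 2 ^ (j + 1) := by exact_mod_cast h1
  have hf : (1 : ℝ) ≤ (h.factorial : ℝ) := by exact_mod_cast h.factorial_pos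
  have h4 : ((b + 1 - h : ℕ) : ℝ) ^ h ≤ (2 * h * (h.factorial : ℝ) * X h j) ^ h := by
    have h5 := h2.trans h3
    rw [div_le_iff₀ (by linarith)] at h5
    refine h5.trans ?_
    rw [mul_pow, X_pow hh]
    have hh' : (1 : ℝ) ≤ h := by exact_mod_cast hh
    have h6 : (1 : ℝ) ≤ 2 * h * (h.factorial : ℝ) := by nlinarith
    have h7 : 2 * h * (h.factorial : ℝ) ≤ (2 * h * (h.factorial : ℝ)) ^ h :=
      le_self_pow₀ h6 (by omega)
    have h8 : (h : ℝ) * 2 ^ (j + 1) * (h.factorial : ℝ) = (2 * h * (h.factorial : ℝ)) * 2 ^ j := by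
      rw [pow_succ]
      ring
    rw [h8]
    exact mul_le_mul_of_nonneg_right h7 (by positivity)
  have h5 : ((b + 1 - h : ℕ) : ℝ) ≤ 2 * h * (h.factorial : ℝ) * X h j := by
    have hX := X_pos h j
    exact le_of_pow_le_pow_left₀ (by omega) (by positivity) h4
  have h6 : (b : ℝ) ≤ h + ((b + 1 - h : ℕ) : ℝ) := by
    have : b ≤ h + (b + 1 - h) := by omega
    exact_mod_cast this
  have h7 := X_one_le h j
  unfold CC
  have hh0 : (0 : ℝ) ≤ h := Nat.cast_nonneg h
  nlinarith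

open Classical in
/-- the elements of the shell outside of the cells of `U` -/
noncomputable def outside (A : Set ℕ) (j D : ℕ) (U : Finset ℕ) : Finset ℕ :=
  (shell A j).filter (fun n => n / 2 ^ (j - D) ∉ U)

/-- Singular shells: the shell of `A` at the scale `j` is covered, up to at most `δ 2 ^ (j / h)` elements, by at most
`δ 2 ^ D` dyadic cells of length `2 ^ (j - D)`. -/
def Sing (h : ℕ) (δ : ℝ) (A : Set ℕ) (D j : ℕ) : Prop :=
  ∃ U : Finset ℕ, (U.card : ℝ) ≤ δ * 2 ^ D ∧ ((outside A j D U).card : ℝ) ≤ δ * X h j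

lemma Sing.refine {h : ℕ} {δ : ℝ} {A : Set ℕ} {D' D j : ℕ} (hD : D' ≤ D) (hj : D ≤ j)
    (hS : Sing h δ A D' j) : Sing h δ A D j := by
  classical
  obtain ⟨U, hU1, hU2⟩ := hS
  set q := 2 ^ (D - D') with hq
  have hq0 : 0 < q := by positivity
  refine ⟨(U ×ˢ range q).image (fun p : ℕ × ℕ => p.1 * q + p.2), ?_, ?_⟩
  · have h1 : (((U ×ˢ range q).image (fun p : ℕ × ℕ => p.1 * q + p.2)).card : ℝ) ≤
        ((U ×ˢ range q).card : ℝ) := by
      exact_mod_cast Finset.card_image_le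
    rw [Finset.card_product, Finset.card_range] at h1
    push_cast at h1
    refine h1.trans ?_
    have h2 := mul_le_mul_of_nonneg_right hU1 (by positivity : (0 : ℝ) ≤ (q : ℝ))
    refine h2.trans (le_of_eq ?_)
    rw [hq]
    push_cast
    rw [mul_assoc, ← pow_add]
    congr 2
    omega
  · refine le_trans ?_ hU2
    refine Nat.cast_le.2 (Finset.card_le_card ?_)
    intro n hn
    obtain ⟨hn1, hn2⟩ := Finset.mem_filter.1 hn
    refine Finset.mem_filter.2 ⟨hn1, fun hn3 => hn2 ?_⟩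
    refine Finset.mem_image.2 ⟨(n / 2 ^ (j - D'), (n / 2 ^ (j - D)) % q), ?_, ?_⟩
    · exact Finset.mem_product.2 ⟨hn3, Finset.mem_range.2 (Nat.mod_lt _ hq0)⟩
    · simp only
      have h1 : n / 2 ^ (j - D') = (n / 2 ^ (j - D)) / q := by
        rw [Nat.div_div_eq_div_mul, hq, ← pow_add]
        congr 2
        omega
      rw [h1]
      exact Nat.div_add_mod' _ _

/-- The light part of a nonsingular shell. -/
lemma light {h : ℕ} (hh : 1 ≤ h) {A : Set ℕ} (hA : IsBh h A) {δ : ℝ} (hδ : 0 < δ) {m0 j : ℕ}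
    (hmj : m0 ≤ j) (hns : ¬ Sing h δ A (j - m0) j) :
    ∃ L : Finset ℕ, L ⊆ shell A j ∧ δ * X h j ≤ (L.card : ℝ) ∧
      ∀ m, m0 ≤ m → m ≤ j → en L j m ≤ CC h ^ 2 / δ * X h j ^ 2 := by
  classical
  have hX := X_pos h j
  have hC := CC_pos hh
  set c : ℝ := CC h / δ * X h j with hc
  have hc0 : 0 < c := by
    rw [hc]
    have : 0 < CC h / δ := div_pos (by linarith) hδ
    positivity
  set H := (range (2 ^ (j + 1 - m0))).filter (fun v => c / 2 ^ (j - m0) < wt (shell A j) m0 v) with hH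
  have hsh : ∀ n ∈ shell A j, 2 ^ j ≤ n ∧ n < 2 ^ (j + 1) := fun n hn => (mem_shell.1 hn).1
  have hHc : (H.card : ℝ) ≤ δ * 2 ^ (j - m0) := by
    have h1 : (H.card : ℝ) * (c / 2 ^ (j - m0)) ≤ ∑ v ∈ H, wt (shell A j) m0 v := by
      have h2 := Finset.card_nsmul_le_sum H (fun v => wt (shell A j) m0 v) (c / 2 ^ (j - m0))
        (fun v hv => (Finset.mem_filter.1 hv).2.le)
      rw [nsmul_eq_mul] at h2
      exact h2
    have h3 : ∑ v ∈ H, wt (shell A j) m0 v ≤ ∑ v ∈ range (2 ^ (j + 1 - m0)), wt (shell A j) m0 v :=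
      Finset.sum_le_sum_of_subset_of_nonneg (Finset.filter_subset _ _)
        (fun v _ _ => wt_nonneg _ _ _)
    rw [wt_sum (shell A j) m0 _ (fun n hn => div_lt_shell hmj (hsh n hn).2)] at h3
    have h4 := shell_card hh hA j
    have h5 : (H.card : ℝ) * (c / 2 ^ (j - m0)) ≤ CC h * X h j := h1.trans (h3.trans h4)
    have h6 : (0 : ℝ) < 2 ^ (j - m0) := by positivity
    have h7 : CC h * X h j = δ * 2 ^ (j - m0) * (c / 2 ^ (j - m0)) := by
      rw [hc]
      field_simp
    rw [h7] at h5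
    exact le_of_mul_le_mul_right h5 (by positivity)
  have hout : δ * X h j < ((outside A j (j - m0) H).card : ℝ) := by
    by_contra hcon
    exact hns ⟨H, hHc, not_lt.1 hcon⟩
  have hjm : j - (j - m0) = m0 := by omega
  refine ⟨outside A j (j - m0) H, Finset.filter_subset _ _, hout.le, ?_⟩
  intro m h0 hm
  have hLs : ∀ n ∈ outside A j (j - m0) H, 2 ^ j ≤ n ∧ n < 2 ^ (j + 1) :=
    fun n hn => hsh n (Finset.mem_filter.1 hn).1
  have hcell : ∀ v, wt (outside A j (j - m0) H) m0 v ≤ c / 2 ^ (j - m0) := by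
    intro v
    have hnn : 0 ≤ c / 2 ^ (j - m0) := by positivity
    have hle : wt (outside A j (j - m0) H) m0 v ≤ wt (shell A j) m0 v := by
      unfold wt
      refine Nat.cast_le.2 (Finset.card_le_card ?_)
      exact Finset.filter_subset_filter _ (Finset.filter_subset _ _)
    by_cases hv : v ∈ H
    · have h1 : wt (outside A j (j - m0) H) m0 v = 0 := by
        unfold wt
        rw [Nat.cast_eq_zero, Finset.card_eq_zero, Finset.filter_eq_empty_iff]
        intro n hn hn2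
        have h3 := (Finset.mem_filter.1 hn).2
        rw [hjm, hn2] at h3
        exact h3 hv
      rw [h1]
      exact hnn
    · by_cases hv2 : v < 2 ^ (j + 1 - m0)
      · have h1 : ¬ c / 2 ^ (j - m0) < wt (shell A j) m0 v := fun h2 =>
          hv (Finset.mem_filter.2 ⟨Finset.mem_range.2 hv2, h2⟩)
        exact hle.trans (not_lt.1 h1)
      · rw [wt_zero _ j m0 v hmj (fun n hn => (hLs n hn).2) (not_lt.1 hv2)]
        exact hnn
  have h1 := en_le (outside A j (j - m0) H) j m0 m h0 hm hLs c hcell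
  refine h1.trans ?_
  have h2 : ((outside A j (j - m0) H).card : ℝ) ≤ CC h * X h j := by
    refine le_trans ?_ (shell_card hh hA j)
    exact Nat.cast_le.2 (Finset.card_le_card (Finset.filter_subset _ _))
  have h3 := mul_le_mul_of_nonneg_left h2 hc0.le
  refine h3.trans (le_of_eq ?_)
  rw [hc]
  ring

end Pool.Agent.BHS
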